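import Pool.Agent.Helper74.DI.St

set_option autoImplicit false

namespace Pool.Agent.Helper81.DI

open Pool.Agent.Helper74 Pool.Agent.Helper74.DI

theorem adj_one (v : List (Option ℕ)) (P : Option ℕ → Prop) : (∃ x ∈ v, P x) → (∃ x ∈ v, ¬ P x) →
    ∃ u x y w, v = u ++ x :: y :: w ∧ ((P x ∧ ¬ P y) ∨ (¬ P x ∧ P y)) := by
  classical
  induction v with
  | nil => rintro ⟨x, hx, _⟩; simp at hx
  | cons a v ih =>
    cases v with
    | nil =>
      rintro ⟨x, hx, hPx⟩ ⟨y, hy, hPy⟩
      simp only [List.mem_singleton] at hx hy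
      subst hx; subst hy
      exact absurd hPx hPy
    | cons b v =>
      rintro ⟨x, hx, hPx⟩ ⟨y, hy, hPy⟩
      by_cases hab : P a ↔ P b
      · have h1 : ∃ x ∈ b :: v, P x := by
          rcases List.mem_cons.1 hx with rfl | hx
          · exact ⟨b, by simp, hab.1 hPx⟩
          · exact ⟨x, hx, hPx⟩
        have h2 : ∃ x ∈ b :: v, ¬ P x := by
          rcases List.mem_cons.1 hy with rfl | hy
          · exact ⟨b, by simp, fun h => hPy (hab.2 h)⟩
          · exact ⟨y, hy, hPy⟩
        obtain ⟨u, x, y, w, e, h⟩ := ih h1 h2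
        exact ⟨a :: u, x, y, w, by rw [e]; rfl, h⟩
      · refine ⟨[], a, b, v, rfl, ?_⟩
        by_cases ha : P a
        · exact Or.inl ⟨ha, fun hb => hab ⟨fun _ => hb, fun _ => ha⟩⟩
        · refine Or.inr ⟨ha, ?_⟩
          by_contra hb
          exact hab ⟨fun h => absurd h ha, fun h => absurd h hb⟩

theorem adj_two (v : List (Option ℕ)) : 2 ≤ v.length →
    (∃ u x y w, v = u ++ x :: y :: w ∧ Dc x y) ∨ ∃ c : ℕ, ∀ x ∈ v, x = some c := by
  induction v with
  | nil => intro h; simp at h
  | cons a v ih =>
    cases v with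
    | nil => intro h; simp at h
    | cons b v =>
      intro _
      by_cases hab : Dc a b
      · exact Or.inl ⟨[], a, b, v, rfl, hab⟩
      · unfold Dc at hab
        push Not at hab
        obtain ⟨rfl, hn⟩ := hab
        obtain ⟨c, rfl⟩ := Option.ne_none_iff_exists'.1 hn
        cases v with
        | nil =>
          refine Or.inr ⟨c, fun x hx => ?_⟩
          simp only [List.mem_cons, List.not_mem_nil, or_false, or_self] at hx
          exact hx
        | cons d v =>
          rcases ih (by simp) with ⟨u, x, y, w, e, h⟩ | ⟨c', h⟩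
          · exact Or.inl ⟨some c :: u, x, y, w, by rw [e]; rfl, h⟩
          · have hc : some c = some c' := h _ (by simp)
            refine Or.inr ⟨c', fun x hx => ?_⟩
            rcases List.mem_cons.1 hx with rfl | hx
            · exact hc
            · exact h x hx

theorem hADJ : StADJ := ⟨adj_one, adj_two⟩

end Pool.Agent.Helper81.DI
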